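import Pool.Agent.helper10.TY.Spec

/-!
# MP_2e0e07_nt, project T, row SQC
-/

set_option autoImplicit false

namespace Pool.Agent.TY

open Matrix Polynomial Pool.Agent.GO Pool.Agent.AR Pool.Agent.RG MeasureTheory

private theorem SQC_tens_mem {F Γ m : Type*} [Field F] [Group Γ] [Fintype m] [DecidableEq m]
    (V : Γ →* Matrix m m F) (a b : ℕ) (p q : (Fin a → m) × (Fin b → m)) :
    (fun g => tens V a b g p q) ∈ alg V := by
  have h1 : (fun g => tens V a b g p q) = (∏ k : Fin a, fun g => V g (p.1 k) (q.1 k)) *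
      ∏ k : Fin b, fun g => V g⁻¹ (q.2 k) (p.2 k) := by
    funext g
    rw [Pi.mul_apply, Finset.prod_apply, Finset.prod_apply]
    rfl
  rw [h1]
  exact Subalgebra.mul_mem _ (Subalgebra.prod_mem _ fun k _ => coef_mem V _ _)
    (Subalgebra.prod_mem _ fun k _ => coefInv_mem V _ _)

theorem SQC : SQC_stmt := by
  classical
  intro F Γ m X _ _ _ _ _ _ V T N a b B hB π hπ l x
  obtain ⟨L, hL⟩ := LinearMap.exists_extend (l ∘ₗ π)
  have hL' : ∀ y : B, L y.1 = l (π y) := fun y => LinearMap.congr_fun hL y
  have hlin : ∀ y : ((j : Fin N) → (Fin (a j) → m) × (Fin (b j) → m) → F),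
      L y = ∑ j, ∑ k, L (Pi.single j (Pi.single k 1)) * y j k := by
    intro y
    conv_lhs => rw [← Finset.univ_sum_single y]
    rw [map_sum]
    apply Finset.sum_congr rfl
    intro j _
    have h0 : (Pi.single j (y j) : ((j : Fin N) → (Fin (a j) → m) × (Fin (b j) → m) → F)) =
        ∑ k, y j k • (Pi.single j (Pi.single k (1 : F)) :
          ((j : Fin N) → (Fin (a j) → m) × (Fin (b j) → m) → F)) := by
      funext j' k'
      rw [Finset.sum_apply, Finset.sum_apply]
      simp only [Pi.smul_apply]
      by_cases hj : j' = j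
      · subst hj
        simp only [Pi.single_eq_same, smul_eq_mul]
        rw [Finset.sum_eq_single k']
        · simp
        · intro k _ hk
          rw [Pi.single_eq_of_ne (Ne.symm hk), mul_zero]
        · intro h
          exact absurd (Finset.mem_univ _) h
      · rw [Pi.single_eq_of_ne hj]
        simp only [Pi.single_eq_of_ne hj, Pi.zero_apply, smul_zero, Finset.sum_const_zero]
    rw [h0, map_sum]
    apply Finset.sum_congr rfl
    intro k _
    rw [map_smul, smul_eq_mul, mul_comm]
  have hkey : ∀ g : Γ, l (T g (π x)) =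
      ∑ j, ∑ k, L (Pi.single j (Pi.single k 1)) * ∑ k', tens V (a j) (b j) g k k' * x.1 j k' := by
    intro g
    rw [← hπ g x, ← hL', hlin]
    rfl
  have hfun : (fun g => l (T g (π x))) =
      ∑ j, ∑ k, ∑ k', (L (Pi.single j (Pi.single k 1)) * x.1 j k') •
        (fun g => tens V (a j) (b j) g k k') := by
    funext g
    rw [hkey g, Finset.sum_apply]
    apply Finset.sum_congr rfl
    intro j _
    rw [Finset.sum_apply]
    apply Finset.sum_congr rfl
    intro k _
    rw [Finset.sum_apply, Finset.mul_sum]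
    apply Finset.sum_congr rfl
    intro k' _
    rw [Pi.smul_apply, smul_eq_mul]
    ring
  rw [hfun]
  exact Subalgebra.sum_mem _ fun j _ => Subalgebra.sum_mem _ fun k _ =>
    Subalgebra.sum_mem _ fun k' _ => Subalgebra.smul_mem _ (SQC_tens_mem V (a j) (b j) k k') _

end Pool.Agent.TY
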