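import Pool.Agent.helper12.TY.Spec

set_option autoImplicit false

namespace Pool.Agent.TY

open Pool.Agent.helper58.DC Pool.Agent.DI Pool.Agent.GR Pool.Agent.OB Pool.Agent.TZ

theorem YST_range_normal {G E A : Type} [Group G] [Group E] [Group A] (X : Extension G E A) :
    X.inc.range.Normal := by
  constructor
  rintro _ ⟨g, rfl⟩ e
  exact ⟨X.act e g, X.act_spec e g⟩

theorem YST_comm {G E A : Type} [Group G] [Group E] [CommGroup A] (X : Extension G E A) (x y : E) :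
    x * y * x⁻¹ * y⁻¹ ∈ X.inc.range := by
  obtain ⟨g, hg⟩ := (X.exact (x * y * x⁻¹ * y⁻¹)).1 (by
    simp only [map_mul, map_inv]
    rw [mul_right_comm (X.proj x), mul_inv_cancel, one_mul, mul_inv_cancel])
  exact ⟨g, hg⟩

theorem YST_card {G E A : Type} [Group G] [Group E] [Group A] (X : Extension G E A) :
    Nat.card X.inc.range = Nat.card G :=
  Nat.card_congr (MonoidHom.ofInjective X.inc_injective).symm.toEquiv

theorem YST_arith (p n S S0 S1 a N t k : ℤ) (hn : n ≠ 0)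
    (h : p * n * S = n * (S0 + p ^ 2 * S1) - N * n * t) (hk : S1 = a) (h0 : S0 + S1 = k) :
    a = k + p ^ 2 * a - p * S - N * t := by
  have h2 : n * (p * S) = n * (S0 + p ^ 2 * S1 - N * t) := by linarith
  have h3 := mul_left_cancel₀ hn h2
  subst hk
  linarith

theorem YST (hYRL : YRL_stmt) (hYTQ : YTQ_stmt) (hYOS : YOS_stmt) (hYCI : YCI_stmt)
    (hYWF : YWF_stmt) (hYWS : YWS_stmt) (hYWN : YWN_stmt) (hYHY : YHY_stmt) (hYHK : YHK_stmt) :
    YST_stmt := by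
  intro c hc p m hpf M hM G _ _ hG χ g D hHy
  have hp : p.Prime := hpf.out
  have hHy' : Hy p c m M χ g D := by
    refine ⟨hHy.irr, hHy.le, hHy.pgrp, hHy.card, hHy.om, hHy.el, hHy.mem, ?_⟩
    intro h
    apply hHy.ne
    rw [pow_succ, pow_mul]
    exact Subgroup.pow_mem _ h p
  have hnt : Nontrivial G := by
    by_contra h
    rw [not_nontrivial_iff_subsingleton] at h
    apply hHy.ne
    rw [Subsingleton.elim ((g ^ m) ^ p ^ (c + 1)) 1]
    exact Subgroup.one_mem _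
  obtain ⟨hfin, hcT, hcG, hOp⟩ := hYWF p G
  obtain ⟨hO1, hO2⟩ := hOp hnt hG
  obtain ⟨hirr, hst, hstW⟩ := hYWS p M G χ hHy.irr
  obtain ⟨R, hR, hrel⟩ := hYRL (Tp p → G) (WG p G) (Tp p) (WX p G) p M hM.max hM.mem hcT hO1 hO2 _
    hirr hstW
  obtain ⟨hN1, hN2⟩ := hYWN p M G hG χ hHy.irr
  have hsumR : (p : ℤ) ^ (c + 1) ∣ ∑ b ∈ R, aB p M b := by
    apply Finset.dvd_sum
    intro b hb
    exact hc p m M hM (WG p G) hO2 b (dg p g) (DW p D)
      (hYHY p c m M hM G χ g D hHy b (hR b hb).1 (hR b hb).2)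
  have hT : ((p : ℤ) ^ (c + 3)) * (Nat.card (WX p G).inc.range : ℤ) ∣
      ∑ᶠ Q ∈ QQ p (WX p G).inc.range,
        TQ p M (WX p G).inc.range (omega (ext0 (WX p G).inc (tens fun _ : Tp p => χ))) Q := by
    refine hYOS p (WG p G) (WX p G).inc.range (YST_range_normal _) (YST_comm _) _ _ ?_ ?_
    · intro u _ Q _
      exact hYCI p M (WG p G) (WX p G).inc.range (YST_range_normal _) _ u Q
    · intro Q hQ
      obtain ⟨R', hR', hTQ⟩ := hYTQ (Tp p → G) (WG p G) (Tp p) (WX p G) p M hM.max hM.mem hcT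
        (omega (ext0 (WX p G).inc (tens fun _ : Tp p => χ))) Q hQ
      rw [hTQ]
      have h1 : (p : ℤ) ^ (c + 1) ∣ ∑ b ∈ R', aB p M b := by
        apply Finset.dvd_sum
        intro b hb
        obtain ⟨χ', h2, h3⟩ := hYHK p c m M hM G χ g D hHy' Q hQ.1 hQ.2.2 b (hR' b hb).1
          (hR' b hb).2.2
        rw [← h3]
        exact hc p m M hM G hG χ' g D h2
      obtain ⟨r, hr⟩ := h1
      refine ⟨r, ?_⟩
      rw [hr]
      ring
  obtain ⟨t, ht⟩ := hT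
  rw [YST_card] at ht
  have hn : (Nat.card (Tp p → G) : ℤ) ≠ 0 := by
    have : Nat.card (Tp p → G) ≠ 0 := by
      rw [hcG]
      exact pow_ne_zero _ (Nat.card_pos (α := G)).ne'
    exact_mod_cast this
  rw [ht] at hrel
  have hfinal := YST_arith (p : ℤ) _ _ _ _ (aB p M χ) _ t _ hn hrel hN1 hN2
  have ha : (p : ℤ) ^ (c + 1) ∣ aB p M χ := hc p m M hM G hG χ g D hHy'
  rw [hfinal]
  have h1 : (p : ℤ) ^ (c + 1 + 1) ∣ aB p M χ ^ p := by
    have h2 : ((p : ℤ) ^ (c + 1)) ^ p ∣ aB p M χ ^ p := pow_dvd_pow_of_dvd ha p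
    refine dvd_trans ?_ h2
    rw [← pow_mul]
    apply pow_dvd_pow
    have := hp.two_le
    nlinarith
  have h2 : (p : ℤ) ^ (c + 1 + 1) ∣ (p : ℤ) ^ 2 * aB p M χ := by
    obtain ⟨r, hr⟩ := ha
    rw [hr]
    exact ⟨(p : ℤ) * r, by ring⟩
  have h3 : (p : ℤ) ^ (c + 1 + 1) ∣ (p : ℤ) * ∑ b ∈ R, aB p M b := by
    obtain ⟨r, hr⟩ := hsumR
    rw [hr]
    exact ⟨r, by ring⟩
  have h4 : (p : ℤ) ^ (c + 1 + 1) ∣ (p : ℤ) ^ (c + 3) * t := ⟨(p : ℤ) * t, by ring⟩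
  exact dvd_sub (dvd_sub (dvd_add h1 h2) h3) h4

end Pool.Agent.TY
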